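import Pool.Agent.N328.GL.Defs

/-!
Project GL (helper328), task TRF: lifts of `B` from lifts of a split of `B`.
Lean proof: helper768.
-/

set_option autoImplicit false

namespace Pool.Agent.N768.GL
open Finset Pool.Agent.H160R2.HF Pool.Agent.N328.LF Pool.Agent.N328.CD Pool.Agent.N328.GL

section
variable {V E : Type} [DecidableEq E] {N : ℕ}

/-- the permutations of the lift of `B` -/
def Phi (T H : Finset E) (p : Option E → Equiv.Perm (Fin N)) (e : E) : Equiv.Perm (Fin N) :=
  (if e ∈ H then p none else 1) * p (some e) * (if e ∈ T then (p none)⁻¹ else 1)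

/-- the map of the vertices -/
def al (v : V) (q : Equiv.Perm (Fin N)) : Option V × Fin N → V × Fin N
  | (none, i) => (v, q i)
  | (some u, i) => (u, i)

/-- the map of the edges -/
def be (T : Finset E) (q : Equiv.Perm (Fin N)) (x : E × Fin N) : Option E × Fin N :=
  (some x.1, (if x.1 ∈ T then q⁻¹ else 1) x.2)

/-- the permutations of the split and of the lift determine each other -/
def psi (T H : Finset E) : (Option E → Equiv.Perm (Fin N)) ≃
    Equiv.Perm (Fin N) × (E → Equiv.Perm (Fin N)) where
  toFun p := (p none, Phi T H p)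
  invFun x := fun o => match o with
    | none => x.1
    | some e => (if e ∈ H then x.1⁻¹ else 1) * x.2 e * (if e ∈ T then x.1 else 1)
  left_inv p := by
    funext o
    cases o with
    | none => rfl
    | some e =>
      show (if e ∈ H then (p none)⁻¹ else 1) * ((if e ∈ H then p none else 1) * p (some e) *
        (if e ∈ T then (p none)⁻¹ else 1)) * (if e ∈ T then p none else 1) = p (some e)
      split_ifs <;> group
  right_inv x := by
    refine Prod.ext rfl (funext fun e => ?_)
    show (if e ∈ H then x.1 else 1) * ((if e ∈ H then x.1⁻¹ else 1) * x.2 e *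
      (if e ∈ T then x.1 else 1)) * (if e ∈ T then x.1⁻¹ else 1) = x.2 e
    split_ifs <;> group

end

variable {V E : Type} [Fintype V] [Fintype E] [DecidableEq V] [DecidableEq E]

/-- GL/TRF: lifts of `B` from lifts of a split of `B`. -/
theorem trf (B : OrGraph V E) (v : V) (T H : Finset E) (hT : ∀ e ∈ T, B.t e = v)
    (hH : ∀ e ∈ H, B.h e = v) (N : ℕ) :
    ∃ Φ : (Option E → Equiv.Perm (Fin N)) → (E → Equiv.Perm (Fin N)),
      (∀ p, ∃ (α : Option V × Fin N → V × Fin N) (β : E × Fin N → Option E × Fin N),
        Contr (lift (split B v T H) p) (lift B (Φ p)) α β) ∧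
      ∀ A : Set (E → Equiv.Perm (Fin N)), (Φ ⁻¹' A).ncard = N.factorial * A.ncard := by
  refine ⟨Phi T H, fun p => ⟨al v (p none), be T (p none), ?_, ?_, ?_, ?_⟩, fun A => ?_⟩
  · rintro ⟨e, i⟩ ⟨f, j⟩ h
    have h1 : e = f := Option.some.inj (congrArg Prod.fst h)
    subst h1
    have h2 := congrArg Prod.snd h
    exact Prod.ext rfl (Equiv.injective _ h2)
  · rintro ⟨e, j⟩
    show al v (p none) (if e ∈ T then none else some (B.t e),
      (if e ∈ T then (p none)⁻¹ else 1) j) = (B.t e, j)
    by_cases he : e ∈ T
    · rw [if_pos he, if_pos he, hT e he]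
      show (v, p none ((p none)⁻¹ j)) = (v, j)
      exact congrArg (Prod.mk v) (Equiv.apply_symm_apply (p none) j)
    · rw [if_neg he, if_neg he]
      rfl
  · rintro ⟨e, j⟩
    show al v (p none) (if e ∈ H then none else some (B.h e),
      p (some e) ((if e ∈ T then (p none)⁻¹ else 1) j)) = (B.h e, Phi T H p e j)
    unfold Phi
    by_cases he : e ∈ H
    · rw [if_pos he, if_pos he, hH e he]
      rfl
    · rw [if_neg he, if_neg he, one_mul]
      rfl
  · rintro ⟨o, i⟩ h
    cases o with
    | none => rfl
    | some e =>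
      exfalso
      refine h (e, (if e ∈ T then (p none)⁻¹ else 1)⁻¹ i) ?_
      show (some e, (if e ∈ T then (p none)⁻¹ else 1)
        ((if e ∈ T then (p none)⁻¹ else 1 : Equiv.Perm (Fin N))⁻¹ i)) = (some e, i)
      exact congrArg (Prod.mk (some e)) (Equiv.apply_symm_apply _ i)
  · have h1 : Phi T H ⁻¹' A = (psi T H).symm '' (Set.univ ×ˢ A) := by
      ext p
      constructor
      · intro hp
        exact ⟨psi T H p, ⟨trivial, hp⟩, Equiv.symm_apply_apply _ _⟩
      · rintro ⟨x, hx, rfl⟩
        have h2 : Phi T H ((psi T H).symm x) = x.2 :=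
          congrArg Prod.snd (Equiv.apply_symm_apply (psi T H) x)
        rw [Set.mem_preimage, h2]
        exact hx.2
    rw [h1, Set.ncard_image_of_injective _ (Equiv.injective _), Set.ncard_prod, Set.ncard_univ,
      Nat.card_eq_fintype_card, Fintype.card_perm, Fintype.card_fin]

end Pool.Agent.N768.GL
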